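import Pool.Agent.X111.DM.Main

set_option autoImplicit false

/-!
MP_112ba8_nt. Moments of zeta with derivatives near the critical line. Let `δ(T) → 0`, `δ(T) log T → ∞` and `σ = 1/2 + δ(T)`. For
every real `1 ≤ k ≤ 2`, all `i, j ≥ 0` and all complex `p, q` with positive real parts,
`(2δ)^(k²) (1/T) ∫_0^T |ζ(σ + it)|^(2k-2) δ^i ζ^(i)(1/2 + pδ + it) δ^j ζ^(j)(1/2 + qδ - it) dt`
converges to `a(k)` times the mixed derivative `∂_q^j ∂_p^i` of `((1+p)/2)^(1-k) ((1+q)/2)^(1-k) ((p+q)/2)^(-1)`. In particular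
`(1/T) ∫_0^T |ζ(σ + it)|^(2k-2) |ζ'(σ + it)|² dt ~ a(k) (k² + 1) (2δ)^(-k²-2)`.
-/

open Filter Topology MeasureTheory

namespace Pool.Agent.Results.MP_112ba8_nt.DerivativeMoments

/-- The generalised divisor function at a prime power: `d_k(p^m) = Γ(k + m) / (Γ(k) m!)`. -/
noncomputable def dk (k : ℝ) (m : ℕ) : ℝ := Real.Gamma (k + m) / (Real.Gamma k * (m.factorial : ℝ))

/-- The arithmetic factor `a(k) = ∏_p (1 - 1/p)^(k²) ∑_m d_k(p^m)² p^(-m)`. -/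
noncomputable def ak (k : ℝ) : ℝ :=
  ∏' p : Nat.Primes, ((1 - 1 / (p : ℝ)) ^ (k ^ 2) * ∑' m : ℕ, dk k m ^ 2 / (p : ℝ) ^ m)

/-- The kernel `((1+p)/2)^(1-k) ((1+q)/2)^(1-k) ((p+q)/2)^(-1)`, principal branches. -/
noncomputable def G (k : ℝ) (p q : ℂ) : ℂ :=
  ((1 + p) / 2) ^ ((1 - k : ℝ) : ℂ) * ((1 + q) / 2) ^ ((1 - k : ℝ) : ℂ) * ((p + q) / 2)⁻¹

/-- The integrand `|ζ(1/2 + δ + it)|^(2k-2) δ^i ζ^(i)(1/2 + pδ + it) δ^j ζ^(j)(1/2 + qδ - it)`. -/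
noncomputable def f (k : ℝ) (i j : ℕ) (p q : ℂ) (δ t : ℝ) : ℂ :=
  ((‖riemannZeta (1 / 2 + δ + Complex.I * t)‖ ^ (2 * k - 2) : ℝ) : ℂ) *
    ((δ : ℂ) ^ i * iteratedDeriv i riemannZeta (1 / 2 + p * δ + Complex.I * t)) *
    ((δ : ℂ) ^ j * iteratedDeriv j riemannZeta (1 / 2 + q * δ - Complex.I * t))

/-- the coefficients -/
lemma dk_lc {k : ℝ} (hk : 0 < k) (m : ℕ) : dk k m = Pool.Agent.H306R2.lc k m := by
  have hG : Real.Gamma k ≠ 0 := (Real.Gamma_pos_of_pos hk).ne'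
  unfold dk
  induction m with
  | zero =>
    unfold Pool.Agent.H306R2.lc
    simp [hG]
  | succ m ih =>
    have h1 : Pool.Agent.H306R2.lc k (m + 1) = Pool.Agent.H306R2.lc k m * ((k + m) / ((m : ℝ) + 1)) := by
      unfold Pool.Agent.H306R2.lc
      rw [Finset.prod_range_succ]
    have hkm : k + (m : ℝ) ≠ 0 := by positivity
    have h2 : Real.Gamma (k + ((m + 1 : ℕ) : ℝ)) = (k + m) * Real.Gamma (k + m) := by
      rw [← Real.Gamma_add_one hkm]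
      congr 1
      push_cast
      ring
    have hf : (m.factorial : ℝ) ≠ 0 := by positivity
    rw [h1, ← ih, h2, Nat.factorial_succ]
    push_cast
    field_simp

/-- the arithmetic factor -/
lemma ak_aF {k : ℝ} (hk : 0 < k) : ak k = Pool.Agent.H306R2.aF k := by
  unfold ak Pool.Agent.H306R2.aF
  refine tprod_congr fun p => ?_
  simp_rw [dk_lc hk, one_div, inv_pow, div_eq_mul_inv]

/-- the mixed second derivative of the kernel at `(1, 1)` -/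
lemma G_one (k : ℝ) : iteratedDeriv 1 (fun y => iteratedDeriv 1 (fun x => G k x y) 1) 1 = (((k ^ 2 + 1) / 4 : ℝ) : ℂ) := by
  -- the first derivative
  have h1 : ∀ y : ℂ, 0 < y.re → iteratedDeriv 1 (fun x => G k x y) 1 =
      ((1 + y) / 2) ^ ((1 - k : ℝ) : ℂ) * (((1 - k : ℝ) : ℂ) / 2 * ((1 + y) / 2)⁻¹ - 1 / 2 * (((1 + y) / 2)⁻¹) ^ 2) := by
    intro y hy
    rw [iteratedDeriv_one]
    have hne : (1 + y) / 2 ≠ 0 := by
      intro h
      have := congrArg Complex.re h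
      simp at this
      linarith
    have d1 : HasDerivAt (fun x : ℂ => (1 + x) / 2) (1 / 2) 1 := ((hasDerivAt_id (1:ℂ)).const_add 1).div_const 2
    have d2 : HasDerivAt (fun x : ℂ => (x + y) / 2) (1 / 2) 1 := ((hasDerivAt_id (1:ℂ)).add_const y).div_const 2
    have e1 : ((1:ℂ) + 1) / 2 = 1 := by norm_num
    have d3 : HasDerivAt (fun x : ℂ => ((1 + x) / 2) ^ ((1 - k : ℝ) : ℂ)) (((1 - k : ℝ) : ℂ) * ((1 + 1) / 2) ^ (((1 - k : ℝ) : ℂ) - 1) * (1 / 2)) 1 :=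
      d1.cpow_const (by rw [e1]; exact Complex.one_mem_slitPlane)
    have d4 : HasDerivAt (fun x : ℂ => ((x + y) / 2)⁻¹) (-(1 / 2) / ((1 + y) / 2) ^ 2) 1 := d2.inv hne
    have d5 := (d3.mul_const (((1 + y) / 2) ^ ((1 - k : ℝ) : ℂ))).mul d4
    have d6 := d5.deriv
    unfold G
    refine Eq.trans d6 ?_
    rw [e1, Complex.one_cpow, Complex.one_cpow]
    field_simp
    ring
  rw [iteratedDeriv_one]
  have hev : (fun y => iteratedDeriv 1 (fun x => G k x y) 1) =ᶠ[𝓝 (1:ℂ)] fun y => ((1 + y) / 2) ^ ((1 - k : ℝ) : ℂ) *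
      (((1 - k : ℝ) : ℂ) / 2 * ((1 + y) / 2)⁻¹ - 1 / 2 * (((1 + y) / 2)⁻¹) ^ 2) := by
    have : ∀ᶠ y : ℂ in 𝓝 1, 0 < y.re :=
      (isOpen_lt continuous_const Complex.continuous_re).mem_nhds (show (0:ℝ) < (1:ℂ).re by norm_num)
    filter_upwards [this] with y hy
    exact h1 y hy
  rw [hev.deriv_eq]
  have e1 : ((1:ℂ) + 1) / 2 = 1 := by norm_num
  have d1 : HasDerivAt (fun x : ℂ => (1 + x) / 2) (1 / 2) 1 := ((hasDerivAt_id (1:ℂ)).const_add 1).div_const 2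
  have d3 : HasDerivAt (fun x : ℂ => ((1 + x) / 2) ^ ((1 - k : ℝ) : ℂ)) (((1 - k : ℝ) : ℂ) * ((1 + 1) / 2) ^ (((1 - k : ℝ) : ℂ) - 1) * (1 / 2)) 1 :=
    d1.cpow_const (by rw [e1]; exact Complex.one_mem_slitPlane)
  have d4 : HasDerivAt (fun x : ℂ => ((1 + x) / 2)⁻¹) (-(1 / 2) / ((1 + 1) / 2) ^ 2) 1 := d1.inv (by rw [e1]; exact one_ne_zero)
  have d5 := (d4.const_mul (((1 - k : ℝ) : ℂ) / 2)).sub ((d4.pow 2).const_mul (1 / 2))
  have d6 := (d3.mul d5).deriv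
  refine Eq.trans d6 ?_
  rw [e1, Complex.one_cpow, Complex.one_cpow]
  push_cast
  simp
  ring

theorem result : ∀ δ : ℝ → ℝ, Tendsto δ atTop (𝓝 0) → Tendsto (fun T : ℝ => δ T * Real.log T) atTop atTop →
    ∀ k : ℝ, 1 ≤ k → k ≤ 2 →
    (∀ i j : ℕ, ∀ p q : ℂ, 0 < p.re → 0 < q.re →
      Tendsto (fun T : ℝ => (((2 * δ T) ^ (k ^ 2) * (1 / T) : ℝ) : ℂ) * ∫ t in Set.Icc 0 T, f k i j p q (δ T) t) atTop
        (𝓝 ((ak k : ℂ) * iteratedDeriv j (fun y => iteratedDeriv i (fun x => G k x y) p) q))) ∧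
    Tendsto (fun T : ℝ => (2 * δ T) ^ (k ^ 2 + 2) * (1 / T) * ∫ t in Set.Icc 0 T,
      ‖riemannZeta (1 / 2 + δ T + Complex.I * t)‖ ^ (2 * k - 2) *
        ‖deriv riemannZeta (1 / 2 + δ T + Complex.I * t)‖ ^ 2) atTop (𝓝 (ak k * (k ^ 2 + 1))) := by
  intro δ hδ hδL k hk1 hk2
  have h0 : ∀ i j : ℕ, ∀ p q : ℂ, 0 < p.re → 0 < q.re →
      Tendsto (fun T : ℝ => (((2 * δ T) ^ (k ^ 2) * (1 / T) : ℝ) : ℂ) * ∫ t in Set.Icc 0 T, f k i j p q (δ T) t) atTop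
        (𝓝 ((ak k : ℂ) * iteratedDeriv j (fun y => iteratedDeriv i (fun x => G k x y) p) q)) := by
    intro i j p q hp hq
    have h := Pool.Agent.X111.DM.main hk1 hk2 hδ hδL i j (p := p) (q := q) hp hq
    rw [ak_aF (by linarith)]
    refine h.congr fun T => ?_
    unfold Pool.Agent.X111.DM.FT
    congr 1
    refine integral_congr_ae (Eventually.of_forall fun t => ?_)
    show Pool.Agent.X111.DM.fp (δ T) i p t * ((Pool.Agent.X111.DM.wg (δ T) k t : ℂ) * Pool.Agent.X111.DM.fq (δ T) j q t) = f k i j p q (δ T) t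
    unfold Pool.Agent.X111.DM.fp Pool.Agent.X111.DM.fq Pool.Agent.X111.DM.wg Pool.Agent.X111.DM.Zd f
    ring
  refine ⟨h0, ?_⟩
  have h1 := h0 1 1 1 1 (by norm_num) (by norm_num)
  rw [G_one] at h1
  have h2 := (Complex.continuous_re.continuousAt.tendsto.comp h1).const_mul 4
  have e1 : 4 * ((ak k : ℂ) * (((k ^ 2 + 1) / 4 : ℝ) : ℂ)).re = ak k * (k ^ 2 + 1) := by
    rw [← Complex.ofReal_mul, Complex.ofReal_re]
    ring
  rw [e1] at h2
  refine h2.congr' ?_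
  have hpos : ∀ᶠ T in atTop, 0 < δ T := Pool.Agent.Y753.SHR.pos_path hδL
  filter_upwards [hpos] with T hT
  show 4 * ((((2 * δ T) ^ (k ^ 2) * (1 / T) : ℝ) : ℂ) * ∫ t in Set.Icc 0 T, f k 1 1 1 1 (δ T) t).re = _
  have e2 : ∀ t : ℝ, f k 1 1 1 1 (δ T) t = ((δ T ^ 2 * (‖riemannZeta (1 / 2 + δ T + Complex.I * t)‖ ^ (2 * k - 2) *
      ‖deriv riemannZeta (1 / 2 + δ T + Complex.I * t)‖ ^ 2) : ℝ) : ℂ) := by
    intro t
    unfold f
    rw [iteratedDeriv_one, one_mul]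
    have e3 : deriv riemannZeta (1 / 2 + (δ T : ℂ) - Complex.I * t) = (starRingEnd ℂ) (deriv riemannZeta (1 / 2 + (δ T : ℂ) + Complex.I * t)) := by
      have e4 : (1 / 2 + (δ T : ℂ) - Complex.I * t) = (starRingEnd ℂ) (1 / 2 + (δ T : ℂ) + Complex.I * t) := by
        apply Complex.ext
        · simp
        · simp
      have e5 : (starRingEnd ℂ) ∘ riemannZeta ∘ (starRingEnd ℂ) = riemannZeta := by
        funext s
        show (starRingEnd ℂ) (riemannZeta ((starRingEnd ℂ) s)) = riemannZeta s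
        rw [riemannZeta_conj, Complex.conj_conj]
      have e6 := congrFun (deriv_conj_conj (f := riemannZeta)) ((starRingEnd ℂ) (1 / 2 + (δ T : ℂ) + Complex.I * t))
      rw [e5] at e6
      rw [e4, e6]
      show (starRingEnd ℂ) (deriv riemannZeta ((starRingEnd ℂ) ((starRingEnd ℂ) (1 / 2 + (δ T : ℂ) + Complex.I * t)))) = _
      rw [Complex.conj_conj]
    rw [e3]
    have e5 : (δ T : ℂ) ^ 1 * deriv riemannZeta (1 / 2 + (δ T : ℂ) + Complex.I * t) * ((δ T : ℂ) ^ 1 *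
        (starRingEnd ℂ) (deriv riemannZeta (1 / 2 + (δ T : ℂ) + Complex.I * t))) =
        (δ T : ℂ) ^ 2 * (deriv riemannZeta (1 / 2 + (δ T : ℂ) + Complex.I * t) *
        (starRingEnd ℂ) (deriv riemannZeta (1 / 2 + (δ T : ℂ) + Complex.I * t))) := by ring
    rw [mul_assoc, e5, Complex.mul_conj, Complex.normSq_eq_norm_sq]
    push_cast
    ring
  simp_rw [e2]
  rw [integral_complex_ofReal, ← Complex.ofReal_mul, Complex.ofReal_re, integral_const_mul,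
    Real.rpow_add (by positivity : (0:ℝ) < 2 * δ T), Real.rpow_two]
  ring

end Pool.Agent.Results.MP_112ba8_nt.DerivativeMoments
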