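import Pool.Agent.Y753.SHR.R18

set_option autoImplicit false

/-!
MP_112ba8_nt. The law of `log |ζ|` under the moment measures. Let `δ(T) → 0`, `δ(T) log T → ∞`, `σ = 1/2 + δ(T)` and
`L = log (1/(2δ))`. For every real `0 < k ≤ 2`, all coprime `m, n ≥ 1` and all bounded continuous `F`,
`(2δ)^(k²) (1/T) ∫_0^T |ζ(σ + it)|^(2k) F((log |ζ(σ + it)| - k L) / √(L/2)) (m/n)^(it) dt`
converges to `a(k) t(k; m n) ∫ F dγ`, `γ` the standard normal law, with explicit `t(k; m n)`. For every `c ≥ 0` there are sets `E(T)` of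
measure `o(δ^(4+4c) T)`, on which `|ζ(σ + it)| > δ^(-2-c)`, such that the same holds for all real `k ≥ 2 + 2c` for the
integrals over `[0, T] \ E(T)`.
-/

open Filter Topology MeasureTheory

namespace Pool.Agent.Results.MP_112ba8_nt.MomentMeasureLaw

/-- The generalised divisor function at a prime power: `d_k(p^m) = Γ(k + m) / (Γ(k) m!)`. -/
noncomputable def dk (k : ℝ) (m : ℕ) : ℝ := Real.Gamma (k + m) / (Real.Gamma k * (m.factorial : ℝ))

/-- The arithmetic factor `a(k) = ∏_p (1 - 1/p)^(k²) ∑_m d_k(p^m)² p^(-m)`. -/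
noncomputable def ak (k : ℝ) : ℝ :=
  ∏' p : Nat.Primes, ((1 - 1 / (p : ℝ)) ^ (k ^ 2) * ∑' m : ℕ, dk k m ^ 2 / (p : ℝ) ^ m)

/-- The factor of the twist: over the primes `p` dividing `n` exactly to the power `c`, the product of
`p^(c/2) (∑_i d_k(p^i) d_k(p^(i+c)) p^(-i-c)) / (∑_i d_k(p^i)² p^(-i))`. -/
noncomputable def tk (k : ℝ) (n : ℕ) : ℝ :=
  ∏ p ∈ n.primeFactors, Real.sqrt p ^ n.factorization p *
    (∑' i : ℕ, dk k i * dk k (i + n.factorization p) / (p : ℝ) ^ (i + n.factorization p)) /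
      ∑' i : ℕ, dk k i ^ 2 / (p : ℝ) ^ i

/-- The integrand `|ζ(1/2 + δ + it)|^(2k) F((log |ζ(1/2 + δ + it)| - k L) / √(L/2)) (m/n)^(it)`, `L = log (1/(2δ))`. -/
noncomputable def f (k : ℝ) (m n : ℕ) (F : BoundedContinuousFunction ℝ ℝ) (δ t : ℝ) : ℂ :=
  ((‖riemannZeta (1 / 2 + δ + Complex.I * t)‖ ^ (2 * k) *
    F ((Real.log ‖riemannZeta (1 / 2 + δ + Complex.I * t)‖ - k * Real.log (1 / (2 * δ))) /
      Real.sqrt (Real.log (1 / (2 * δ)) / 2)) : ℝ) : ℂ) *
    Complex.exp (Complex.I * t * (Real.log m - Real.log n : ℝ))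

/-- the coefficients -/
lemma dk_lc {k : ℝ} (hk : 0 < k) (m : ℕ) : dk k m = Pool.Agent.H306R2.lc k m := by
  have hG : Real.Gamma k ≠ 0 := (Real.Gamma_pos_of_pos hk).ne'
  unfold dk
  induction m with
  | zero =>
    unfold Pool.Agent.H306R2.lc
    simp [hG]
  | succ m ih =>
    have h1 : Pool.Agent.H306R2.lc k (m + 1) = Pool.Agent.H306R2.lc k m * ((k + m) / ((m : ℝ) + 1)) := by
      unfold Pool.Agent.H306R2.lc
      rw [Finset.prod_range_succ]
    have hkm : k + (m : ℝ) ≠ 0 := by positivity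
    have h2 : Real.Gamma (k + ((m + 1 : ℕ) : ℝ)) = (k + m) * Real.Gamma (k + m) := by
      rw [← Real.Gamma_add_one hkm]
      congr 1
      push_cast
      ring
    have hf : (m.factorial : ℝ) ≠ 0 := by positivity
    rw [h1, ← ih, h2, Nat.factorial_succ]
    push_cast
    field_simp

/-- the arithmetic factor -/
lemma ak_aF {k : ℝ} (hk : 0 < k) : ak k = Pool.Agent.H306R2.aF k := by
  unfold ak Pool.Agent.H306R2.aF
  refine tprod_congr fun p => ?_
  simp_rw [dk_lc hk, one_div, inv_pow, div_eq_mul_inv]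

/-- the factor of the twist -/
lemma tk_Nu {k : ℝ} (hk : 0 < k) (m n : ℕ) : tk k (m * n) = Pool.Agent.Y753.NL.Nu k n m := by
  unfold tk Pool.Agent.Y753.NL.Nu Pool.Agent.Y753.NL.nu
  rw [mul_comm m n]
  refine Finset.prod_congr rfl fun p _ => ?_
  simp_rw [dk_lc hk, one_div, inv_pow, div_eq_mul_inv]

open Pool.Agent.Y753.NL Pool.Agent.Y753.SHR

/-- the integrand in the notation of the proof -/
lemma f_eq (k : ℝ) (m n : ℕ) (F : BoundedContinuousFunction ℝ ℝ) (δ t : ℝ) :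
    f k m n F δ t = ((Pool.Agent.W184.zn (1 / 2 + δ) t ^ (2 * k) *
      F ((Real.log (Pool.Agent.W184.zn (1 / 2 + δ) t) - k * ell δ) / sg δ) : ℝ) : ℂ) * tw n m t := by
  have e1 : Pool.Agent.W184.zn (1 / 2 + δ) t = ‖riemannZeta (1 / 2 + δ + Complex.I * t)‖ := by
    unfold Pool.Agent.W184.zn
    congr 2
    push_cast
    ring
  have e2 : tw n m t = Complex.exp (Complex.I * t * (Real.log m - Real.log n : ℝ)) := by
    unfold tw
    congr 1
    ring
  unfold f
  rw [e1, e2]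
  rfl

theorem result : ∀ δ : ℝ → ℝ, Tendsto δ atTop (𝓝 0) → Tendsto (fun T : ℝ => δ T * Real.log T) atTop atTop →
    (∀ k : ℝ, 0 < k → k ≤ 2 → ∀ m n : ℕ, 0 < m → 0 < n → m.Coprime n → ∀ F : BoundedContinuousFunction ℝ ℝ,
      Tendsto (fun T : ℝ => (((2 * δ T) ^ (k ^ 2) * (1 / T) : ℝ) : ℂ) * ∫ t in Set.Icc 0 T, f k m n F (δ T) t) atTop
        (𝓝 ((ak k * tk k (m * n) * ∫ x, F x ∂(ProbabilityTheory.gaussianReal 0 1) : ℝ) : ℂ))) ∧
    ∀ c : ℝ, 0 ≤ c →
    ∃ E : ℝ → Set ℝ, (∀ T, MeasurableSet (E T) ∧ ∀ t ∈ E T, 0 ≤ t ∧ t ≤ T ∧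
        (δ T) ^ (-(2 + c)) < ‖riemannZeta (1 / 2 + δ T + Complex.I * t)‖) ∧
      Tendsto (fun T => (volume (E T)).toReal / (T * (δ T) ^ (4 + 4 * c))) atTop (𝓝 0) ∧
      ∀ k : ℝ, 2 + 2 * c ≤ k → ∀ m n : ℕ, 0 < m → 0 < n → m.Coprime n → ∀ F : BoundedContinuousFunction ℝ ℝ,
        Tendsto (fun T : ℝ => (((2 * δ T) ^ (k ^ 2) * (1 / T) : ℝ) : ℂ) * ∫ t in Set.Icc 0 T \ E T, f k m n F (δ T) t) atTop
          (𝓝 ((ak k * tk k (m * n) * ∫ x, F x ∂(ProbabilityTheory.gaussianReal 0 1) : ℝ) : ℂ)) := by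
  intro δ hδ hδL
  have conv : ∀ (k : ℝ) (T : ℝ), (((2 * δ T) ^ (k ^ 2) * (1 / T) : ℝ) : ℂ) = (((2 * δ T) ^ (k ^ 2) / T : ℝ) : ℂ) := fun k T => by
    rw [mul_one_div]
  have lim : ∀ (k : ℝ) (m n : ℕ) (F : BoundedContinuousFunction ℝ ℝ), 0 < k →
      ((ak k * tk k (m * n) * ∫ x, F x ∂(ProbabilityTheory.gaussianReal 0 1) : ℝ) : ℂ) =
      ((Pool.Agent.H306R2.aF k * (Nu k n m * ∫ x, F x ∂(ProbabilityTheory.gaussianReal 0 1)) : ℝ) : ℂ) := by
    intro k m n F hk
    rw [ak_aF hk, tk_Nu hk, mul_assoc]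
  constructor
  · obtain ⟨E, hE, -, hm⟩ := tilt_small hδ hδL (κ := 0) le_rfl
    intro k hk0 hk2 m n hm0 hn0 hmn F
    have h1 := hm k hk0 (Or.inl hk2) n m hn0.ne' hm0.ne' hmn.symm F
    -- the mass of the exceptional sets
    have h2 := hm k hk0 (Or.inl hk2) 1 1 one_ne_zero one_ne_zero (Nat.coprime_one_left 1) (BoundedContinuousFunction.const ℝ 1)
    have hone : Tendsto (fun T : ℝ => (2 * δ T) ^ (k ^ 2) / T * ∫ t in Set.Icc 0 T \ E T, za (δ T) 0 t ^ (2 * k)) atTop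
        (𝓝 (Pool.Agent.H306R2.aF k)) := by
      have h3 := Complex.continuous_re.continuousAt.tendsto.comp h2
      have e1 : (((Pool.Agent.H306R2.aF k * (Nu k 1 1 * ∫ x, (BoundedContinuousFunction.const ℝ (1:ℝ)) x
          ∂(ProbabilityTheory.gaussianReal 0 1)) : ℝ) : ℂ)).re = Pool.Agent.H306R2.aF k := by
        rw [Complex.ofReal_re, Nu_one]
        simp
      rw [e1] at h3
      refine h3.congr fun T => ?_
      show ((((2 * δ T) ^ (k ^ 2) / T : ℝ) : ℂ) * ∫ t in Set.Icc 0 T \ E T, ((Pool.Agent.W184.zn (1 / 2 + δ T) t ^ (2 * k) *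
          (BoundedContinuousFunction.const ℝ (1:ℝ)) ((Real.log (Pool.Agent.W184.zn (1 / 2 + δ T) t) - k * ell (δ T)) / sg (δ T)) : ℝ) : ℂ) * tw 1 1 t).re = _
      rw [Complex.re_ofReal_mul]
      congr 1
      have e2 : ∀ t : ℝ, ((Pool.Agent.W184.zn (1 / 2 + δ T) t ^ (2 * k) *
          (BoundedContinuousFunction.const ℝ (1:ℝ)) ((Real.log (Pool.Agent.W184.zn (1 / 2 + δ T) t) - k * ell (δ T)) / sg (δ T)) : ℝ) : ℂ) * tw 1 1 t =
          ((za (δ T) 0 t ^ (2 * k) : ℝ) : ℂ) := by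
        intro t
        rw [tw_one, mul_one, BoundedContinuousFunction.const_apply, mul_one, zn_za]
      simp_rw [e2]
      rw [integral_complex_ofReal, Complex.ofReal_re]
    have h4 := small_E hk0 hk2 hδ hδL (fun T => ⟨(hE T).1, (hE T).2.1⟩) 0 hone
    have h5 := transfer (c := fun T => (2 * δ T) ^ (k ^ 2) / T) (f := fun T t => f k m n F (δ T) t)
      (g := fun T t => ‖F‖ * za (δ T) 0 t ^ (2 * k)) (E := E) (E' := fun _ => ∅)
      (L := ((ak k * tk k (m * n) * ∫ x, F x ∂(ProbabilityTheory.gaussianReal 0 1) : ℝ) : ℂ)) ?_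
      (fun T => ⟨(hE T).1, (hE T).2.1⟩) (fun T => ⟨MeasurableSet.empty, Set.empty_subset _⟩) ?_ ?_ ?_ ?_ ?_
    · refine h5.congr fun T => ?_
      rw [Complex.real_smul, conv, Set.sdiff_empty]
    · filter_upwards [pos_path hδL, eventually_gt_atTop 0] with T t1 t2
      positivity
    · filter_upwards [hδ.eventually (gt_mem_nhds (show (0:ℝ) < 1 / 2 by norm_num))] with T hT
      have h6 := FY_U (δ := δ T) (α0 := k) (l := ell (δ T)) (σ := sg (δ T)) (T := T) subset_rfl (by linarith) hk0.le F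
      refine ((h6.ofReal (𝕜 := ℂ)).mul_bdd (c := 1) (tw_cont n m).aestronglyMeasurable (Eventually.of_forall fun t => ?_)).congr
        (Eventually.of_forall fun t => ?_)
      · rw [tw_norm]
      · exact (f_eq k m n F (δ T) t).symm
    · filter_upwards [hδ.eventually (gt_mem_nhds (show (0:ℝ) < 1 / 2 by norm_num))] with T hT
      exact (((za_cont hT 0).rpow_const fun t => Or.inr (by positivity)).continuousOn.integrableOn_compact isCompact_Icc).const_mul _
    · refine Eventually.of_forall fun T t => ?_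
      rw [f_eq, norm_mul, tw_norm, mul_one, Complex.norm_real, norm_mul,
        Real.norm_of_nonneg (Real.rpow_nonneg (Pool.Agent.W184.zn_nonneg _ _) _), zn_za, mul_comm]
      exact mul_le_mul_of_nonneg_right (F.norm_coe_le_norm _) (Real.rpow_nonneg (za_nonneg _ _ _) _)
    · rw [lim k m n F hk0]
      refine h1.congr fun T => ?_
      rw [Complex.real_smul]
      simp_rw [f_eq]
    · have h6 := h4.const_mul ‖F‖
      rw [mul_zero] at h6
      refine h6.congr fun T => ?_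
      rw [Set.sdiff_empty, integral_const_mul]
      ring
  · intro c hc
    obtain ⟨E, hE, hvol, hm⟩ := tilt_small hδ hδL (κ := c) hc
    refine ⟨E, fun T => ⟨(hE T).1, fun t ht => ⟨((hE T).2.1 ht).1, ((hE T).2.1 ht).2, ?_⟩⟩, hvol, ?_⟩
    · have h1 := (hE T).2.2 t ht
      have e1 : za (δ T) 0 t = ‖riemannZeta (1 / 2 + δ T + Complex.I * t)‖ := by
        unfold za
        congr 2
        push_cast
        ring
      rwa [e1] at h1
    · intro k hk m n hm0 hn0 hmn F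
      have hk0 : 0 < k := by linarith
      rw [lim k m n F hk0]
      refine (hm k hk0 (Or.inr (by linarith)) n m hn0.ne' hm0.ne' hmn.symm F).congr fun T => ?_
      rw [conv]
      simp_rw [f_eq]

end Pool.Agent.Results.MP_112ba8_nt.MomentMeasureLaw
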