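import Pool.Agent.X111.OL.Full

set_option autoImplicit false

/-!
MP_112ba8_nt. All high moments of zeta on the critical line have the conjectured order of magnitude off a small set of
large values. Let `c ≥ 0` and `B ≥ 2 + 2c`. There are a measurable set `X` with `|ζ(1/2 + it)| > (log t)^(2+c)` for `t ∈ X`,
whose part in `[0, T]` has measure `O(T / (log T)^(4+4c))`, and `a, A > 0` such that for all real `2 + 2c ≤ k ≤ B` and all
large `T`

`a T (log T)^(k²) ≤ ∫_{[0,T] \ X} |ζ(1/2 + it)|^(2k) dt ≤ A T (log T)^(k²)`;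

the same holds for the intervals `[T, T + H]` with `T / (log T)^α ≤ H ≤ T`, `α < 1/2`, and there the measure of the
`t ∉ X` with `|log |ζ(1/2 + it)| - V| ≤ W` lies between `a` and `A` times `H exp (-V² / log log T) / √(log log T)`
for `(2 + c) log log T + W + 1 ≤ V ≤ B log log T`. In particular, for every integer `k ≥ 3` (take `c = k/2 - 1`, `B = k`)
the `2k`-th moment has the order of magnitude `(log T)^(k²)` off a set of measure `O(T / (log T)^(2k))` of points where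
`|ζ(1/2 + it)| > (log t)^(1 + k/2)`.
-/

namespace Pool.Agent.Results.MP_112ba8_nt.OffLargeValues

open Filter MeasureTheory Set

/-- `|ζ(1/2 + it)|` -/
noncomputable def z (t : ℝ) : ℝ := ‖riemannZeta (1 / 2 + t * Complex.I)‖

/-- The Gaussian weight `exp (-V² / log log T) / √(log log T)`. -/
noncomputable def gauss (T V : ℝ) : ℝ :=
  Real.exp (-(V ^ 2 / Real.log (Real.log T))) / Real.sqrt (Real.log (Real.log T))

/-- The part of the set `S` where `V - W ≤ log |ζ(1/2 + it)| ≤ V + W`. -/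
def Level (S : Set ℝ) (V W : ℝ) : Set ℝ := {t ∈ S | Real.exp (V - W) ≤ z t ∧ z t ≤ Real.exp (V + W)}

theorem result (B c : ℝ) (hc : 0 ≤ c) (hB : 2 + 2 * c ≤ B) :
    ∃ (X : Set ℝ) (a A W : ℝ), MeasurableSet X ∧ 0 < a ∧ 0 < A ∧ 0 < W ∧
      (∀ t ∈ X, 1 < t ∧ Real.log t ^ (2 + c) < z t) ∧
      (∀ᶠ T : ℝ in atTop, volume.real (X ∩ Icc 0 T) ≤ A * T / Real.log T ^ (4 + 4 * c) ∧
        ∀ k : ℝ, 2 + 2 * c ≤ k → k ≤ B →
          a * T * Real.log T ^ (k ^ 2) ≤ ∫ t in Icc 0 T \ X, z t ^ (2 * k) ∧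
          ∫ t in Icc 0 T \ X, z t ^ (2 * k) ≤ A * T * Real.log T ^ (k ^ 2)) ∧
      ∀ α : ℝ, 0 ≤ α → α < 1 / 2 → ∀ᶠ T : ℝ in atTop, ∀ H : ℝ, T / Real.log T ^ α ≤ H → H ≤ T →
        volume.real (X ∩ Icc T (T + H)) ≤ A * H / Real.log T ^ (4 + 4 * c) ∧
        (∀ k : ℝ, 2 + 2 * c ≤ k → k ≤ B →
          a * H * Real.log T ^ (k ^ 2) ≤ ∫ t in Icc T (T + H) \ X, z t ^ (2 * k) ∧
          ∫ t in Icc T (T + H) \ X, z t ^ (2 * k) ≤ A * H * Real.log T ^ (k ^ 2)) ∧
        ∀ V : ℝ, (2 + c) * Real.log (Real.log T) + W + 1 ≤ V → V ≤ B * Real.log (Real.log T) →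
          a * H * gauss T V ≤ volume.real (Level (Icc T (T + H) \ X) V W) ∧
          volume.real (Level (Icc T (T + H) \ X) V W) ≤ A * H * gauss T V :=
  Pool.Agent.X111.OL.full B c hc hB

end Pool.Agent.Results.MP_112ba8_nt.OffLargeValues
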