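import Pool.Agent.Y753.SHR.R14
import Pool.Agent.Y753.SHR.R19
import Pool.Agent.Y753.SHR.Star
import Pool.Agent.Y901.SHR.Diag
import Pool.Agent.X111.LD.Dense

set_option autoImplicit false

/-!
MP_112ba8_nt. The landscape of zeta around the points that dominate its moments. Let `δ(T) → 0`, `δ(T) log T → ∞`,
`σ = 1/2 + δ(T)` and `a_1, ..., a_n` real. Under the moment measure `|ζ(σ + it)|^(2k) dt` on `[0, T]`, `0 < k ≤ 2`, the vector
of the `log |ζ(σ + i(t + a_j δ))| - log |ζ(σ + it)|` converges in law, without any normalisation, to the normal law with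
means `-(k/2) Λ(a_j)` and covariances `(Λ(a_i) + Λ(a_j) - Λ(a_i - a_j))/4`, `Λ(x) = log (1 + x²/4)`. For `c ≥ 0` there are
sets `E(T)` of measure `o(δ^(4+4c) T)` on which `|ζ(σ + it)| > δ^(-2-c)` such that this holds on `[0, T] \ E(T)` for
the orders `k ≥ 2 + 2c` (`k` and the `a_j` from prescribed countable sets).
-/

open Filter Topology MeasureTheory ProbabilityTheory

namespace Pool.Agent.Results.MP_112ba8_nt.PeakLandscape

/-- The arithmetic factor `a(k) = ∏_p (1 - 1/p)^(k²) ∑_m (Γ(k + m) / (Γ(k) m!))² p^(-m)`. -/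
noncomputable def ak (k : ℝ) : ℝ :=
  ∏' p : Nat.Primes, ((1 - 1 / (p : ℝ)) ^ (k ^ 2) *
    ∑' m : ℕ, (Real.Gamma (k + m) / (Real.Gamma k * (m.factorial : ℝ))) ^ 2 / (p : ℝ) ^ m)

/-- The function `Λ(x) = log (1 + x²/4)`. -/
noncomputable def Lam (x : ℝ) : ℝ := Real.log (1 + x ^ 2 / 4)

/-- The vector of the `log |ζ(1/2 + δ + i(t + a_j δ))| - log |ζ(1/2 + δ + it)|`. -/
noncomputable def Y {n : ℕ} (δ : ℝ) (a : Fin n → ℝ) (t : ℝ) : Fin n → ℝ := fun j =>
  Real.log ‖riemannZeta (1 / 2 + δ + Complex.I * ((t + a j * δ : ℝ) : ℂ))‖ -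
    Real.log ‖riemannZeta (1 / 2 + δ + Complex.I * t)‖

/-- `ρ` is the normal law on `ℝ^n` with mean `m` and covariance `C`: the linear forms `∑ c_j y_j` have the normal laws with
mean `∑ c_j m_j` and variance `∑ c_i c_j C_(ij)`. -/
def Normal {n : ℕ} (m : Fin n → ℝ) (C : Fin n → Fin n → ℝ) (ρ : ProbabilityMeasure (Fin n → ℝ)) : Prop :=
  ∀ c : Fin n → ℝ, 0 ≤ ∑ i, ∑ j, c i * c j * C i j ∧
    (ρ : Measure (Fin n → ℝ)).map (fun y => ∑ j, c j * y j) =
      gaussianReal (∑ j, c j * m j) (∑ i, ∑ j, c i * c j * C i j).toNNReal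

/-- The limit law. -/
def Limit (k : ℝ) {n : ℕ} (a : Fin n → ℝ) (ρ : ProbabilityMeasure (Fin n → ℝ)) : Prop :=
  Normal (fun j => -(k / 2) * Lam (a j)) (fun i j => (Lam (a i) + Lam (a j) - Lam (a i - a j)) / 4) ρ

/-- the arithmetic factor in the notation of the proof -/
lemma ak_aF {k : ℝ} (hk : 0 < k) : ak k = Pool.Agent.H306R2.aF k := by
  have e1 : ∀ m : ℕ, Real.Gamma (k + m) / (Real.Gamma k * (m.factorial : ℝ)) = Pool.Agent.H306R2.lc k m := by
    intro m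
    have hG : Real.Gamma k ≠ 0 := (Real.Gamma_pos_of_pos hk).ne'
    induction m with
    | zero =>
      unfold Pool.Agent.H306R2.lc
      simp [hG]
    | succ m ih =>
      have h1 : Pool.Agent.H306R2.lc k (m + 1) = Pool.Agent.H306R2.lc k m * ((k + m) / ((m : ℝ) + 1)) := by
        unfold Pool.Agent.H306R2.lc
        rw [Finset.prod_range_succ]
      have hkm : k + (m : ℝ) ≠ 0 := by positivity
      have h2 : Real.Gamma (k + ((m + 1 : ℕ) : ℝ)) = (k + m) * Real.Gamma (k + m) := by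
        rw [← Real.Gamma_add_one hkm]
        congr 1
        push_cast
        ring
      have hf : (m.factorial : ℝ) ≠ 0 := by positivity
      rw [h1, ← ih, h2, Nat.factorial_succ]
      push_cast
      field_simp
  unfold ak Pool.Agent.H306R2.aF
  refine tprod_congr fun p => ?_
  simp_rw [e1, one_div, inv_pow, div_eq_mul_inv]

open Pool.Agent.Y753.SHL Pool.Agent.Y753.SHR

lemma Lam_Lg (x : ℝ) : Lam x = Lg x := by
  unfold Lam Lg
  congr 1
  ring

lemma za_zero (δ t : ℝ) : za δ 0 t = ‖riemannZeta (1 / 2 + δ + Complex.I * t)‖ := by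
  unfold za
  congr 2
  push_cast
  ring

lemma Y_Yl {n : ℕ} (δ : ℝ) (a : Fin n → ℝ) (t : ℝ) : Yl δ a t = Y δ a t := by
  funext j
  unfold Yl Y
  rw [za_zero]
  unfold za
  congr 4
  ring

lemma lim_iff {k : ℝ} {n : ℕ} {a : Fin n → ℝ} {ρ : ProbabilityMeasure (Fin n → ℝ)}
    (h : Nor (mL (2 * k) a) (CL a) ρ) : Limit k a ρ := by
  intro c
  have h1 := h c
  have e1 : (fun j => -(k / 2) * Lam (a j)) = mL (2 * k) a := by
    funext j
    unfold mL
    rw [Lam_Lg]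
    ring
  have e2 : (fun i j => (Lam (a i) + Lam (a j) - Lam (a i - a j)) / 4) = CL a := by
    funext i j
    unfold CL
    rw [Lam_Lg, Lam_Lg, Lam_Lg]
  rw [e1, e2]
  exact h1

theorem result : ∀ δ : ℝ → ℝ, Tendsto δ atTop (𝓝 0) → Tendsto (fun T : ℝ => δ T * Real.log T) atTop atTop →
    (∀ k : ℝ, 0 < k → k ≤ 2 → ∀ (n : ℕ) (a : Fin n → ℝ), 0 < ak k ∧
      ∃ ρ : ProbabilityMeasure (Fin n → ℝ), Limit k a ρ ∧ ∀ F : BoundedContinuousFunction (Fin n → ℝ) ℝ,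
        Tendsto (fun T : ℝ => (2 * δ T) ^ (k ^ 2) * (1 / T * ∫ t in (0:ℝ)..T,
          ‖riemannZeta (1 / 2 + δ T + Complex.I * t)‖ ^ (2 * k) * F (Y (δ T) a t))) atTop
          (𝓝 (ak k * ∫ y, F y ∂(ρ : Measure (Fin n → ℝ))))) ∧
    ∀ c : ℝ, 0 ≤ c → ∀ S K : Set ℝ, S.Countable → K.Countable → (∀ k ∈ K, 2 + 2 * c ≤ k) →
    ∃ E : ℝ → Set ℝ, (∀ T, MeasurableSet (E T) ∧ ∀ t ∈ E T, 0 ≤ t ∧ t ≤ T ∧
        (δ T) ^ (-(2 + c)) < ‖riemannZeta (1 / 2 + δ T + Complex.I * t)‖) ∧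
      Tendsto (fun T => (volume (E T)).toReal / (T * (δ T) ^ (4 + 4 * c))) atTop (𝓝 0) ∧
      ∀ k ∈ K, 0 < ak k ∧ ∀ (n : ℕ) (a : Fin n → ℝ), (∀ j, a j ∈ S) →
        ∃ ρ : ProbabilityMeasure (Fin n → ℝ), Limit k a ρ ∧ ∀ F : BoundedContinuousFunction (Fin n → ℝ) ℝ,
          Tendsto (fun T : ℝ => (2 * δ T) ^ (k ^ 2) * (1 / T * ∫ t in Set.Icc 0 T \ E T,
            ‖riemannZeta (1 / 2 + δ T + Complex.I * t)‖ ^ (2 * k) * F (Y (δ T) a t))) atTop
            (𝓝 (ak k * ∫ y, F y ∂(ρ : Measure (Fin n → ℝ)))) := by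
  intro δ hδ hδL
  have e0 : ∀ k : ℝ, 2 * k / 2 = k := fun k => by ring
  constructor
  · intro k hk0 hk2 n a
    obtain ⟨ρ, hρ, hF⟩ := land_full Pool.Agent.Y901.SHR.done Pool.Agent.Y753.SHR.star Pool.Agent.X111.LD.dense
      Pool.Agent.X111.LD.land hδ hδL (β := 2 * k) (by positivity) (by linarith) a
    rw [ak_aF hk0]
    refine ⟨Pool.Agent.H306R2.aF_pos hk0, ρ, lim_iff hρ, fun F => ?_⟩
    have h1 := hF F
    rw [e0] at h1
    refine h1.congr' ?_
    filter_upwards [eventually_gt_atTop 0] with T hT0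
    rw [integral_Icc_eq_integral_Ioc, ← intervalIntegral.integral_of_le hT0.le]
    simp_rw [Y_Yl, za_zero]
    ring
  · intro c hc S K hS hK hKc
    obtain ⟨E, hE, hvol, hm⟩ := land_small Pool.Agent.Y901.SHR.done Pool.Agent.Y753.SHR.star Pool.Agent.X111.LD.dense
      Pool.Agent.X111.LD.land hδ hδL hc hS (B := (fun k : ℝ => 2 * k) '' K) (hK.image _) (by
        rintro _ ⟨k, hk, rfl⟩
        have := hKc k hk
        show 0 < 2 * k
        linarith)
    refine ⟨E, fun T => ⟨(hE T).1, fun t ht => ⟨((hE T).2.1 ht).1, ((hE T).2.1 ht).2, ?_⟩⟩, hvol, fun k hk => ⟨?_, fun n a ha => ?_⟩⟩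
    · have h1 := (hE T).2.2 t ht
      rwa [za_zero] at h1
    · have hk0 : 0 < k := by
        have := hKc k hk
        linarith
      rw [ak_aF hk0]
      exact Pool.Agent.H306R2.aF_pos hk0
    have hk0 : 0 < k := by
      have := hKc k hk
      linarith
    obtain ⟨ρ, hρ, hF⟩ := hm (2 * k) ⟨k, hk, rfl⟩ (Or.inr (by have := hKc k hk; linarith)) n a ha
    refine ⟨ρ, lim_iff hρ, fun F => ?_⟩
    have h1 := hF F
    rw [e0] at h1
    rw [ak_aF hk0]
    refine h1.congr fun T => ?_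
    simp_rw [Y_Yl, za_zero]
    ring

end Pool.Agent.Results.MP_112ba8_nt.PeakLandscape
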